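import Pool.Agent.helper62.MS.SpecA

set_option autoImplicit false

open scoped MatrixGroups ContDiff Topology UpperHalfPlane ComplexConjugate
open UpperHalfPlane MeasureTheory Filter Set

namespace Pool.Agent.MS

open Pool.Agent.RS

theorem SYB_cj {Γ : Subgroup SL(2, ℝ)} {u : ℍ → ℂ} (hu : InvC Γ u) : InvC Γ (fun z => conj (u z)) :=
  ⟨Complex.continuous_conj.comp hu.1, fun γ z => by
    show conj (u (γ • z)) = conj (u z)
    rw [hu.2 γ z]⟩

theorem SYB_proof (hGDU : GDU_stmt) (hGWB : GWB_stmt) (hGFD : GFD_stmt) (hGBD : GBD_stmt) : SYB_stmt := by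
  intro Γ F f κ hΓ hF hf hfc hκ hfr v hv hvb
  have hfc' : Continuous (fun z => conj (f z)) := Complex.continuous_conj.comp hf
  have hfs' : HasCompactSupport (fun z => conj (f z)) := by
    apply hfc.comp_left (g := fun z : ℂ => conj z)
    exact map_zero _
  have hW : ∀ u : ℍ → ℂ, InvC Γ u → ∀ g, ‖Wf (fun z => conj (f z)) u g‖ = ‖Wf f (fun z => conj (u z)) g‖ := by
    intro u hu g
    have h1 := (hGWB Γ f (fun z => conj (u z)) hΓ hf hfc (SYB_cj hu)).2.2 g
    have h2 : (fun z => (starRingEnd ℂ) ((fun z => conj (u z)) z)) = u := by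
      funext z
      exact Complex.conj_conj (u z)
    rw [h2] at h1
    rw [← h1, RCLike.norm_conj]
  have hfr' : ∀ u : ℍ → ℂ, InvC Γ u → ∫ g in dG F, ‖Wf (fun z => conj (f z)) u g‖ ^ 2 ∂mG ≤ κ * ∫ z in F, ‖u z‖ ^ 2 := by
    intro u hu
    have h1 := hfr (fun z => conj (u z)) (SYB_cj hu)
    have h2 : ∫ g in dG F, ‖Wf (fun z => conj (f z)) u g‖ ^ 2 ∂mG = iR F (fun g => ‖Wf f (fun z => conj (u z)) g‖ ^ 2) := by
      unfold iR
      congr 1
      funext g
      rw [hW u hu g]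
    have h3 : nn F (fun z => conj (u z)) = ∫ z in F, ‖u z‖ ^ 2 := by
      unfold nn
      congr 1
      funext z
      rw [RCLike.norm_conj]
    rw [h2, ← h3]
    exact h1
  obtain ⟨hw, hdual, -, -⟩ := hGDU Γ F (fun z => conj (f z)) κ hΓ hF hfc' hfs' hκ hfr' v v hv hv hvb hvb
  refine ⟨hw, ?_⟩
  set w := sy Γ F (fun z => conj (f z)) v with hwdef
  have hwc := SYB_cj hw
  have h1 := hdual (fun z => conj (w z)) hwc
  set h : SL(2, ℝ) → ℂ := Wf (fun z => conj (f z)) (fun z => conj (w z)) with hh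
  have hInv : InvG Γ h := (hGWB Γ (fun z => conj (f z)) (fun z => conj (w z)) hΓ hfc' hfs' hwc).1
  obtain ⟨mh, hmh⟩ := (hGBD Γ ℂ h hΓ hInv).1
  obtain ⟨mv, hmv⟩ := hvb
  obtain ⟨hmeas, -, hfin, -⟩ := (hGFD Γ F hΓ hF).1
  have hB : ∫ g in dG F, ‖h g‖ ^ 2 ∂mG ≤ κ * nn F w := by
    have h2 := hfr' (fun z => conj (w z)) hwc
    have h3 : ∫ z in F, ‖conj (w z)‖ ^ 2 = nn F w := by
      unfold nn
      congr 1
      funext z
      rw [RCLike.norm_conj]
    rw [h3] at h2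
    exact h2
  have hWn : nn F w = ‖∫ z in F, w z * conj (w z)‖ := by
    have h2 : ∫ z in F, w z * conj (w z) = ((nn F w : ℝ) : ℂ) := by
      have h3 : (fun z => w z * conj (w z)) = fun z => ((‖w z‖ ^ 2 : ℝ) : ℂ) := by
        funext z
        rw [Complex.mul_conj, Complex.normSq_eq_norm_sq]
      rw [h3]
      exact integral_ofReal
    rw [h2, Complex.norm_real, Real.norm_of_nonneg]
    exact integral_nonneg fun z => by positivity
  have hintv : IntegrableOn (fun g => ‖v g‖ ^ 2) (dG F) mG := by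
    refine Measure.integrableOn_of_bounded (M := mv ^ 2) hfin.ne (hv.norm.pow_const 2).aestronglyMeasurable ?_
    refine Filter.Eventually.of_forall fun g => ?_
    rw [Real.norm_of_nonneg (by positivity)]
    exact pow_le_pow_left₀ (norm_nonneg _) (hmv g) 2
  have hinth : IntegrableOn (fun g => ‖h g‖ ^ 2) (dG F) mG := by
    refine Measure.integrableOn_of_bounded (M := mh ^ 2) hfin.ne (hInv.1.norm.pow 2).aestronglyMeasurable ?_
    refine Filter.Eventually.of_forall fun g => ?_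
    rw [Real.norm_of_nonneg (by positivity)]
    exact pow_le_pow_left₀ (norm_nonneg _) (hmh g) 2
  have hA0 : 0 ≤ iR F (fun g => ‖v g‖ ^ 2) := integral_nonneg fun g => by positivity
  have hW0 : 0 ≤ nn F w := by rw [hWn]; exact norm_nonneg _
  have key : ∀ k : ℝ, 0 < k → κ ≤ k → nn F w ≤ k * iR F (fun g => ‖v g‖ ^ 2) := by
    intro k hk hkk
    have h2 : nn F w ≤ ∫ g in dG F, (k * ‖v g‖ ^ 2 + k⁻¹ * ‖h g‖ ^ 2) / 2 ∂mG := by
      rw [hWn, h1]
      refine norm_integral_le_of_norm_le (((hintv.const_mul k).add (hinth.const_mul k⁻¹)).div_const 2) ?_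
      refine Filter.Eventually.of_forall fun g => ?_
      have h5 : ‖v g * h g‖ ≤ (k * ‖v g‖ ^ 2 + k⁻¹ * ‖h g‖ ^ 2) / 2 := by
        rw [norm_mul]
        have h3 : 0 ≤ k⁻¹ * (k * ‖v g‖ - ‖h g‖) ^ 2 := by positivity
        have h4 : k⁻¹ * (k * ‖v g‖ - ‖h g‖) ^ 2 = k * ‖v g‖ ^ 2 + k⁻¹ * ‖h g‖ ^ 2 - 2 * (‖v g‖ * ‖h g‖) := by
          field_simp
          ring
        linarith
      exact h5
    have h3 : ∫ g in dG F, (k * ‖v g‖ ^ 2 + k⁻¹ * ‖h g‖ ^ 2) / 2 ∂mG =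
        (k * iR F (fun g => ‖v g‖ ^ 2) + k⁻¹ * ∫ g in dG F, ‖h g‖ ^ 2 ∂mG) / 2 := by
      have h4 := integral_add (hintv.const_mul k) (hinth.const_mul k⁻¹)
      rw [integral_div, h4, integral_const_mul, integral_const_mul]
      unfold iR
      ring
    rw [h3] at h2
    have h4 : k⁻¹ * ∫ g in dG F, ‖h g‖ ^ 2 ∂mG ≤ nn F w := by
      have h5 : ∫ g in dG F, ‖h g‖ ^ 2 ∂mG ≤ k * nn F w :=
        hB.trans (mul_le_mul_of_nonneg_right hkk hW0)
      rw [inv_mul_le_iff₀ hk]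
      exact h5
    linarith
  apply le_of_forall_pos_le_add
  intro ε hε
  have h2 := key (κ + ε / (iR F (fun g => ‖v g‖ ^ 2) + 1)) (by positivity) (by
    have : 0 < ε / (iR F (fun g => ‖v g‖ ^ 2) + 1) := by positivity
    linarith)
  have h3 : ε / (iR F (fun g => ‖v g‖ ^ 2) + 1) * iR F (fun g => ‖v g‖ ^ 2) ≤ ε := by
    rw [div_mul_eq_mul_div, div_le_iff₀ (by positivity)]
    nlinarith
  calc nn F w ≤ (κ + ε / (iR F (fun g => ‖v g‖ ^ 2) + 1)) * iR F (fun g => ‖v g‖ ^ 2) := h2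
    _ = κ * iR F (fun g => ‖v g‖ ^ 2) + ε / (iR F (fun g => ‖v g‖ ^ 2) + 1) * iR F (fun g => ‖v g‖ ^ 2) := by ring
    _ ≤ κ * iR F (fun g => ‖v g‖ ^ 2) + ε := by linarith

end Pool.Agent.MS
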