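import Pool.Agent.helper57.MS.Spec

/-!
# ms:HVN
-/

set_option autoImplicit false

open Finset

namespace Pool.Agent.helper57.MS

open Pool.Agent.RRank Pool.Agent.helper26.IM

theorem HVN_prod {K ι : Type} [Field K] [Fintype ι] [DecidableEq ι] (f g : ι → K) (a b : ι)
    (hab : a ≠ b) (h : ∀ i, i ≠ a → i ≠ b → f i = g i) (hm : f a * f b = g a * g b) :
    ∏ i, f i = ∏ i, g i := by
  rw [← Finset.prod_sdiff (Finset.subset_univ ({a, b} : Finset ι)),
    ← Finset.prod_sdiff (Finset.subset_univ ({a, b} : Finset ι)), Finset.prod_pair hab,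
    Finset.prod_pair hab, hm]
  congr 1
  refine Finset.prod_congr rfl fun i hi => ?_
  rw [Finset.mem_sdiff, Finset.mem_insert, Finset.mem_singleton, not_or] at hi
  exact h i hi.2.1 hi.2.2

/-- the involution -/
def HVN_inv {d l : ℕ} (I : Finset (Fin d)) (a b : Fin l) (σ : Fin d → Equiv.Perm (Fin l)) :
    Fin d → Equiv.Perm (Fin l) := fun α => if α ∈ I then σ α * Equiv.swap a b else σ α

theorem HVN_sg (K : Type) [Field K] {d l : ℕ} (A I : Finset (Fin d)) (a b : Fin l) (hab : a ≠ b)
    (hodd : Odd (I ∩ A).card) (σ : Fin d → Equiv.Perm (Fin l)) :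
    sg K A (HVN_inv I a b σ) = - sg K A σ := by
  unfold sg HVN_inv
  have h1 : ∀ α, (((Equiv.Perm.sign (if α ∈ I then σ α * Equiv.swap a b else σ α) : ℤˣ) : ℤ) : K)
      = ((Equiv.Perm.sign (σ α) : ℤ) : K) * (if α ∈ I then (-1 : K) else 1) := by
    intro α
    split_ifs with h
    · rw [Equiv.Perm.sign_mul, Equiv.Perm.sign_swap hab]
      simp
    · rw [mul_one]
  rw [Finset.prod_congr rfl fun α _ => h1 α, Finset.prod_mul_distrib]
  have h2 : ∏ α ∈ A, (if α ∈ I then (-1 : K) else 1) = -1 := by
    rw [← Finset.prod_filter, Finset.prod_const]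
    have h3 : A.filter (fun α => α ∈ I) = I ∩ A := by
      ext α
      rw [Finset.mem_filter, Finset.mem_inter, and_comm]
    rw [h3]
    exact hodd.neg_one_pow
  rw [h2]
  ring

theorem HVN : HVN_stmt := by
  intro K _ d l r Q R T hr hT A hodd
  obtain ⟨t, ht, hTt⟩ := hT
  funext x
  have hexp : H l A T x = ∑ c : Fin l → Fin r, ∑ σ : Fin d → Equiv.Perm (Fin l),
      sg K A σ * ∏ i, t (c i) (fun α => x (α, σ α i)) := by
    unfold H
    rw [Finset.sum_apply, Finset.sum_comm]
    refine Finset.sum_congr rfl fun σ _ => ?_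
    rw [Pi.smul_apply, smul_eq_mul, Finset.prod_apply, ← Finset.mul_sum]
    congr 1
    have h1 : ∀ i : Fin l, cop T (fun α => σ α i) x = ∑ j, t j (fun α => x (α, σ α i)) :=
      fun i => hTt _
    rw [Finset.prod_congr rfl fun i _ => h1 i, Finset.prod_univ_sum, Fintype.piFinset_univ]
  rw [hexp]
  refine Finset.sum_eq_zero fun c _ => ?_
  obtain ⟨a, b, hab, hc⟩ := Fintype.exists_ne_map_eq_of_card_lt c (by
    rw [Fintype.card_fin, Fintype.card_fin]
    exact hr)
  obtain ⟨P, hP, u, hu, htu⟩ := rankLEOne_iff.1 (ht (c a))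
  obtain ⟨I, hI, hIA⟩ := hodd P hP
  have hIne : I.Nonempty := by
    have h1 : 0 < (I ∩ A).card := hIA.pos
    exact (Finset.card_pos.1 h1).mono Finset.inter_subset_left
  refine Finset.sum_involution (fun σ _ => HVN_inv I a b σ) ?_ ?_ ?_ ?_
  · intro σ _
    rw [HVN_sg K A I a b hab hIA σ]
    have hprod : ∏ i, t (c i) (fun α => x (α, HVN_inv I a b σ α i))
        = ∏ i, t (c i) (fun α => x (α, σ α i)) := by
      refine HVN_prod _ _ a b hab ?_ ?_
      · intro i hia hib
        have h2 : ∀ α, HVN_inv I a b σ α i = σ α i := by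
          intro α
          unfold HVN_inv
          split_ifs
          · rw [Equiv.Perm.mul_apply, Equiv.swap_apply_of_ne_of_ne hia hib]
          · rfl
        have h3 : ∀ α, x (α, HVN_inv I a b σ α i) = x (α, σ α i) := fun α => by rw [h2]
        show t (c i) (fun α => x (α, HVN_inv I a b σ α i)) = t (c i) (fun α => x (α, σ α i))
        exact congrArg _ (funext h3)
      · show t (c a) _ * t (c b) _ = t (c a) _ * t (c b) _
        rw [← hc, htu, htu, htu, htu, ← Finset.prod_mul_distrib, ← Finset.prod_mul_distrib]
        refine Finset.prod_congr rfl fun I' hI' => ?_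
        by_cases hII : I' = I
        · subst hII
          have h3 : u I' (fun α => x (α, HVN_inv I' a b σ α a)) = u I' (fun α => x (α, σ α b)) := by
            apply hu I' hI'
            intro α hα
            have h4 : HVN_inv I' a b σ α a = σ α b := by
              unfold HVN_inv
              rw [if_pos (Finset.mem_coe.1 hα), Equiv.Perm.mul_apply, Equiv.swap_apply_left]
            show x (α, HVN_inv I' a b σ α a) = x (α, σ α b)
            rw [h4]
          have h5 : u I' (fun α => x (α, HVN_inv I' a b σ α b)) = u I' (fun α => x (α, σ α a)) := by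
            apply hu I' hI'
            intro α hα
            have h4 : HVN_inv I' a b σ α b = σ α a := by
              unfold HVN_inv
              rw [if_pos (Finset.mem_coe.1 hα), Equiv.Perm.mul_apply, Equiv.swap_apply_right]
            show x (α, HVN_inv I' a b σ α b) = x (α, σ α a)
            rw [h4]
          rw [h3, h5, mul_comm]
        · have h6 : ∀ k : Fin l, u I' (fun α => x (α, HVN_inv I a b σ α k))
              = u I' (fun α => x (α, σ α k)) := by
            intro k
            apply hu I' hI'
            intro α hα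
            have h7 : α ∉ I := by
              have h8 := P.disjoint hI' hI hII
              exact Finset.disjoint_left.1 h8 (Finset.mem_coe.1 hα)
            have h9 : HVN_inv I a b σ α k = σ α k := by
              unfold HVN_inv
              rw [if_neg h7]
            show x (α, HVN_inv I a b σ α k) = x (α, σ α k)
            rw [h9]
          rw [h6, h6]
    rw [hprod]
    ring
  · intro σ _ _ h0
    obtain ⟨α, hα⟩ := hIne
    have h1 := congrFun h0 α
    have h2 : HVN_inv I a b σ α = σ α * Equiv.swap a b := if_pos hα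
    rw [h2, mul_eq_left, Equiv.swap_eq_one_iff] at h1
    exact hab h1
  · intro σ _
    exact Finset.mem_univ _
  · intro σ _
    funext α
    show HVN_inv I a b (HVN_inv I a b σ) α = σ α
    unfold HVN_inv
    split_ifs with h
    · rw [mul_assoc, Equiv.swap_mul_self, mul_one]
    · rfl

end Pool.Agent.helper57.MS
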